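import Pool.Agent.Y743.AF.Stm

/-!
AF-CR2: the correlation of two prime polynomials at shifted points.
-/

set_option autoImplicit false

open MeasureTheory Filter

namespace Pool.Agent.Y474.CR2

open Pool.Agent.Y743.AF

theorem osc (A B w e : ℝ) (hw : w ≠ 0) : |∫ t in A..B, Real.cos (w * t + e)| ≤ 2 / |w| := by
  rw [intervalIntegral.integral_comp_mul_add _ hw, integral_cos, smul_eq_mul, abs_mul, abs_inv,
    div_eq_inv_mul]
  refine mul_le_mul_of_nonneg_left ?_ (by positivity)
  have h1 := abs_le.1 (Real.abs_sin_le_one (w * B + e))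
  have h2 := abs_le.1 (Real.abs_sin_le_one (w * A + e))
  rw [abs_le]
  constructor <;> linarith [h1.1, h1.2, h2.1, h2.2]

theorem prod_int (A B x y b d : ℝ) :
    ∫ t in A..B, Real.cos ((t + b) * x) * Real.cos ((t + d) * y) =
    ((∫ t in A..B, Real.cos ((x + y) * t + (b * x + d * y))) +
      ∫ t in A..B, Real.cos ((x - y) * t + (b * x - d * y))) / 2 := by
  rw [← intervalIntegral.integral_add, ← intervalIntegral.integral_div]
  · refine intervalIntegral.integral_congr fun t _ => ?_
    rw [show (x + y) * t + (b * x + d * y) = (t + b) * x + (t + d) * y by ring,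
      show (x - y) * t + (b * x - d * y) = (t + b) * x - (t + d) * y by ring, Real.cos_add,
      Real.cos_sub]
    ring
  · exact Continuous.intervalIntegrable (by fun_prop) _ _
  · exact Continuous.intervalIntegrable (by fun_prop) _ _

theorem logd (X p q : ℕ) (hp : 0 < p) (hpq : p < q) (hq : q ≤ X) :
    1 / (X : ℝ) ≤ Real.log q - Real.log p := by
  have hp' : (0 : ℝ) < p := by exact_mod_cast hp
  have hq' : (0 : ℝ) < q := by exact_mod_cast hp.trans hpq
  have h2 : (q : ℝ) ≤ X := by exact_mod_cast hq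
  have hX : (0 : ℝ) < X := hq'.trans_le h2
  rw [← Real.log_div hq'.ne' hp'.ne']
  refine le_trans ?_ (Real.one_sub_inv_le_log_of_pos (div_pos hq' hp'))
  rw [inv_div]
  have h1 : (p : ℝ) + 1 ≤ q := by exact_mod_cast hpq
  have h3 : 1 - (p : ℝ) / q = (q - p) / q := by field_simp
  rw [h3, div_le_div_iff₀ hX hq']
  nlinarith

theorem logd2 (X p q : ℕ) (hp : 0 < p) (hq : 0 < q) (hpX : p ≤ X) (hqX : q ≤ X) (h : p ≠ q) :
    1 / (X : ℝ) ≤ |Real.log p - Real.log q| := by
  rcases lt_or_gt_of_ne h with h1 | h1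
  · have h2 := logd X p q hp h1 hqX
    rw [abs_sub_comm]
    exact h2.trans (le_abs_self _)
  · exact (logd X q p hq h1 hpX).trans (le_abs_self _)

theorem mem_Prm {X p : ℕ} (h : p ∈ Prm X) : 1 ≤ p ∧ p ≤ X ∧ p.Prime := by
  unfold Prm at h
  rw [Finset.mem_filter, Finset.mem_Icc] at h
  exact ⟨h.1.1, h.1.2, h.2⟩

theorem term (X p q : ℕ) (hp : p ∈ Prm X) (hq : q ∈ Prm X) (A B b d : ℝ) :
    |(∫ t in A..B, Real.cos ((t + b) * Real.log p) * Real.cos ((t + d) * Real.log q)) -
      (if p = q then (B - A) / 2 * Real.cos ((b - d) * Real.log p) else 0)| ≤ 2 * X := by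
  obtain ⟨hp1, hp2, hp3⟩ := mem_Prm hp
  obtain ⟨hq1, hq2, hq3⟩ := mem_Prm hq
  have hX : (1 : ℝ) ≤ X := by exact_mod_cast hp1.trans hp2
  have hlp : ∀ r : ℕ, r.Prime → 1 / 2 ≤ Real.log r := by
    intro r hr
    have h1 : Real.log 2 ≤ Real.log r :=
      Real.log_le_log (by norm_num) (by exact_mod_cast hr.two_le)
    linarith [Real.log_two_gt_d9]
  have hx := hlp p hp3
  have hy := hlp q hq3
  have hs : 1 ≤ |Real.log p + Real.log q| :=
    le_trans (by linarith) (le_abs_self _)
  have h1 : |∫ t in A..B, Real.cos ((Real.log p + Real.log q) * t +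
      (b * Real.log p + d * Real.log q))| ≤ 2 := by
    refine (osc A B _ _ (by intro h; rw [h, abs_zero] at hs; linarith)).trans ?_
    rw [div_le_iff₀ (by linarith)]
    linarith
  rw [prod_int]
  split_ifs with hpq
  · subst hpq
    have h2 : ∫ t in A..B, Real.cos ((Real.log p - Real.log p) * t +
        (b * Real.log p - d * Real.log p)) = (B - A) * Real.cos ((b - d) * Real.log p) := by
      simp only [sub_self, zero_mul, zero_add]
      rw [intervalIntegral.integral_const, smul_eq_mul, ← sub_mul]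
    rw [h2]
    have h3 : ((∫ t in A..B, Real.cos ((Real.log p + Real.log p) * t +
        (b * Real.log p + d * Real.log p))) + (B - A) * Real.cos ((b - d) * Real.log p)) / 2 -
        (B - A) / 2 * Real.cos ((b - d) * Real.log p) =
        (∫ t in A..B, Real.cos ((Real.log p + Real.log p) * t +
        (b * Real.log p + d * Real.log p))) / 2 := by ring
    rw [h3, abs_div, abs_two]
    linarith
  · have h4 := logd2 X p q (by omega) (by omega) hp2 hq2 hpq
    have h5 : 0 < 1 / (X : ℝ) := by positivity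
    have h6 : |∫ t in A..B, Real.cos ((Real.log p - Real.log q) * t +
        (b * Real.log p - d * Real.log q))| ≤ 2 * X := by
      refine (osc A B _ _ (by intro h; rw [h, abs_zero] at h4; linarith)).trans ?_
      rw [div_le_iff₀ (by linarith)]
      have h7 : (1 : ℝ) ≤ X * |Real.log p - Real.log q| := by
        rw [div_le_iff₀ (by linarith)] at h4
        linarith
      linarith
    rw [sub_zero, abs_div, abs_two]
    have h8 := abs_add_le (∫ t in A..B, Real.cos ((Real.log p + Real.log q) * t +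
      (b * Real.log p + d * Real.log q))) (∫ t in A..B, Real.cos ((Real.log p - Real.log q) * t +
        (b * Real.log p - d * Real.log q)))
    linarith

theorem cr2 : Pool.Agent.Y743.AF.S_CR2 := by
  intro X u v hu hv A B b d _
  have e1 : (∫ t in A..B, (∑ p ∈ Prm X, u p * Real.cos ((t + b) * Real.log p)) *
        (∑ q ∈ Prm X, v q * Real.cos ((t + d) * Real.log q))) =
      ∑ p ∈ Prm X, ∑ q ∈ Prm X, u p * v q *
        ∫ t in A..B, Real.cos ((t + b) * Real.log p) * Real.cos ((t + d) * Real.log q) := by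
    have h1 : ∀ t : ℝ, (∑ p ∈ Prm X, u p * Real.cos ((t + b) * Real.log p)) *
        (∑ q ∈ Prm X, v q * Real.cos ((t + d) * Real.log q)) =
        ∑ p ∈ Prm X, ∑ q ∈ Prm X, u p * v q *
          (Real.cos ((t + b) * Real.log p) * Real.cos ((t + d) * Real.log q)) := by
      intro t
      rw [Finset.sum_mul_sum]
      exact Finset.sum_congr rfl fun p _ => Finset.sum_congr rfl fun q _ => by ring
    simp_rw [h1]
    rw [intervalIntegral.integral_finsetSum]
    · refine Finset.sum_congr rfl fun p _ => ?_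
      rw [intervalIntegral.integral_finsetSum]
      · refine Finset.sum_congr rfl fun q _ => ?_
        rw [intervalIntegral.integral_const_mul]
      · intro q _
        exact Continuous.intervalIntegrable (by fun_prop) _ _
    · intro p _
      exact Continuous.intervalIntegrable (by fun_prop) _ _
  have e2 : (B - A) / 2 * ∑ p ∈ Prm X, u p * v p * Real.cos ((b - d) * Real.log p) =
      ∑ p ∈ Prm X, ∑ q ∈ Prm X, u p * v q *
        (if p = q then (B - A) / 2 * Real.cos ((b - d) * Real.log p) else 0) := by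
    rw [Finset.mul_sum]
    refine Finset.sum_congr rfl fun p hp => ?_
    simp only [mul_ite, mul_zero]
    rw [Finset.sum_ite_eq, if_pos hp]
    ring
  rw [e1, e2, ← Finset.sum_sub_distrib]
  have h2 : |∑ p ∈ Prm X, ((∑ q ∈ Prm X, u p * v q *
        ∫ t in A..B, Real.cos ((t + b) * Real.log p) * Real.cos ((t + d) * Real.log q)) -
      ∑ q ∈ Prm X, u p * v q *
        (if p = q then (B - A) / 2 * Real.cos ((b - d) * Real.log p) else 0))| ≤
      ∑ p ∈ Prm X, ∑ q ∈ Prm X, (2 * X : ℝ) := by
    refine (Finset.abs_sum_le_sum_abs _ _).trans (Finset.sum_le_sum fun p hp => ?_)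
    rw [← Finset.sum_sub_distrib]
    refine (Finset.abs_sum_le_sum_abs _ _).trans (Finset.sum_le_sum fun q hq => ?_)
    rw [← mul_sub, abs_mul, abs_mul]
    have h3 := term X p q hp hq A B b d
    have h4 : |u p| * |v q| ≤ 1 := mul_le_one₀ (hu p) (abs_nonneg _) (hv q)
    calc _ ≤ 1 * (2 * X : ℝ) := mul_le_mul h4 h3 (abs_nonneg _) zero_le_one
      _ = _ := one_mul _
  refine h2.trans ?_
  rw [Finset.sum_const, Finset.sum_const, nsmul_eq_mul, nsmul_eq_mul]
  have h5 : ((Prm X).card : ℝ) ≤ X := by
    have h6 : (Prm X).card ≤ X := by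
      unfold Prm
      refine (Finset.card_filter_le _ _).trans ?_
      rw [Nat.card_Icc]
      omega
    exact_mod_cast h6
  have h7 : (0 : ℝ) ≤ X := Nat.cast_nonneg X
  have h8 : (0 : ℝ) ≤ (Prm X).card := Nat.cast_nonneg _
  calc ((Prm X).card : ℝ) * (((Prm X).card : ℝ) * (2 * X)) ≤ X * (X * (2 * X)) := by gcongr
    _ = 2 * (X : ℝ) ^ 3 := by ring
    _ ≤ 4 * (X : ℝ) ^ 3 := by nlinarith [pow_nonneg h7 3]

end Pool.Agent.Y474.CR2
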